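import Mathlib
import Pool.Agent.R1.Ricci

/-!
# Attaching a leaf at a vertex of degree three can lower the largest Ricci eigenvalue

Let `T` be the tree of depth four whose root `v` has three children, whose vertices of levels one,
two and three have 15 children each (so degree 16), and whose vertices of level four are leaves.
A positive function of the edges shows `λ_max(R_T) ≥ 1.05345`. After attaching a leaf at the root
another positive function of the edges shows `λ_max(R_{T'}) ≤ 1.05344`.

(In general, if the three branches at `v` are isomorphic and `λ_max(R_T) > 1`, then attaching a leaf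
at `v` lowers the largest eigenvalue.)
-/

set_option autoImplicit false

open Matrix Finset

namespace Pool.Agent.Results.MP_1a9240_co.LeafAttachment

open Pool.Agent.R1.Ricci

/-- the vertices of the tree -/
abbrev VT : Type := Option (Fin 3 × Option (Fin 15 × Option (Fin 15 × Option (Fin 15 × Unit))))

/-- the tree: the root `none` has three children, the vertices of levels one to three have fifteen
children each -/
def T : SimpleGraph VT :=
  graft 3 (graft 15 (graft 15 (graft 15 (⊥ : SimpleGraph Unit) ()) none) none) none

/-- the level of a vertex -/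
def lev : VT → ℕ := glev (glev (glev (glev fun _ => 0)))

/-- the number of children at each level -/
def ch : ℕ → ℕ
  | 0 => 3
  | 1 => 15
  | 2 => 15
  | 3 => 15
  | _ => 0

lemma levT : Lev T none lev ch := by
  have h := lev_graft (lev_graft (lev_graft (lev_graft lev_point 15) 15) 15) 3
  have hc : (fun k => if k = 0 then 3 else (fun k => if k = 0 then 15 else (fun k => if k = 0 then 15
      else (fun k => if k = 0 then 15 else (fun _ : ℕ => 0) (k - 1)) (k - 1)) (k - 1)) (k - 1)) =
      ch := by
    funext k
    rcases k with _ | _ | _ | _ | k <;> simp [ch]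
  rw [hc] at h
  exact h

lemma lev_le (x : VT) : lev x ≤ 4 := by
  rcases x with _ | ⟨i, _ | ⟨j, _ | ⟨k, _ | ⟨l, u⟩⟩⟩⟩ <;> simp [lev, glev]

/-- the subsolution on `T` -/
def h1 : ℕ → ℝ
  | 0 => 100000
  | 1 => 83484
  | 2 => 20360
  | _ => 1025

/-- the supersolution on `T'` -/
def h2 : ℕ → ℝ
  | 0 => 100000
  | 1 => 83680
  | 2 => 20415
  | _ => 1029

lemma h1_pos : ∀ k : ℕ, 0 < h1 k
  | 0 => by change (0 : ℝ) < 100000; norm_num
  | 1 => by change (0 : ℝ) < 83484; norm_num
  | 2 => by change (0 : ℝ) < 20360; norm_num
  | (k + 3) => by change (0 : ℝ) < 1025; norm_num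

lemma h2_pos : ∀ k : ℕ, 0 < h2 k
  | 0 => by change (0 : ℝ) < 100000; norm_num
  | 1 => by change (0 : ℝ) < 83680; norm_num
  | 2 => by change (0 : ℝ) < 20415; norm_num
  | (k + 3) => by change (0 : ℝ) < 1029; norm_num

/-- the function of the edges of `T` given by the lower level of the two end points -/
def g1 (h : ℕ → ℝ) : Sym2 VT → ℝ :=
  Sym2.lift ⟨fun x y => h (min (lev x) (lev y)), fun _ _ => congrArg h (min_comm _ _)⟩

lemma g1_mk (h : ℕ → ℝ) (x y : VT) : g1 h s(x, y) = h (min (lev x) (lev y)) := rfl

open Classical in
lemma sum_g1 (h : ℕ → ℝ) (x : VT) : (∑ z, if T.Adj x z then g1 h s(x, z) else 0) =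
    (if lev x = 0 then 0 else h (lev x - 1)) + ch (lev x) * h (lev x) := by
  have := levT.nbr (fun t => h (min (lev x) t)) x
  have e1 : min (lev x) (lev x - 1) = lev x - 1 := min_eq_right (Nat.sub_le _ _)
  have e2 : min (lev x) (lev x + 1) = lev x := min_eq_left (Nat.le_succ _)
  simp only [g1_mk]
  rw [this, e1, e2]

lemma lower : (105345 / 100000 : ℝ) ≤ lamMax T := by
  classical
  have hadj : T.Adj none (some (0, none)) := rfl
  refine le_lamMax T (105345 / 100000) (fun e => g1 h1 e) ?_ ⟨⟨s(none, some (0, none)), hadj⟩⟩ ?_
  · rintro ⟨e, he⟩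
    induction e with
    | h x y => exact h1_pos _
  · have key : ∀ x y : VT, ∀ h : T.Adj x y, lev y = lev x + 1 →
        105345 / 100000 * g1 h1 s(x, y) ≤ (ricci T *ᵥ fun e => g1 h1 e) ⟨s(x, y), h⟩ := by
      intro x y h hl
      have e2 : min (lev x) (lev x + 1) = lev x := min_eq_left (Nat.le_succ _)
      rw [ricci_apply, sum_g1, sum_g1, levT.degree, levT.degree, g1_mk, hl, e2,
        if_neg (Nat.succ_ne_zero _), if_neg (Nat.succ_ne_zero _), Nat.add_sub_cancel]
      have hx : lev x ≤ 3 := by
        have := lev_le y
        omega
      interval_cases lev x <;> norm_num [h1, ch]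
    rintro ⟨e, he⟩
    induction e with
    | h x y =>
      rcases levT.adj x y he with hl | hl
      · exact key x y he hl
      · have he' : T.Adj x y := he
        have := key y x he'.symm hl
        have e1 : (⟨s(y, x), he'.symm⟩ : T.edgeSet) = ⟨s(x, y), he⟩ :=
          Subtype.ext Sym2.eq_swap
        have e2 : g1 h1 s(y, x) = g1 h1 s(x, y) := by rw [Sym2.eq_swap]
        rw [e1, e2] at this
        exact this

/-- the function of the edges of `T'` -/
def g2 : Sym2 (Option VT) → ℝ :=
  Sym2.lift ⟨fun x y => match x, y with
    | some a, some b => h2 (min (lev a) (lev b))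
    | _, _ => 32560, by
    rintro (_ | a) (_ | b)
    · rfl
    · rfl
    · rfl
    · simp only
      rw [min_comm]⟩

lemma g2_some (a b : VT) : g2 s(some a, some b) = g1 h2 s(a, b) := rfl

open Classical in
lemma sum_g2_some (x : VT) : (∑ z, if (attachLeaf T none).Adj (some x) z then g2 s(some x, z) else 0) =
    (if x = none then 32560 else 0) +
    ((if lev x = 0 then 0 else h2 (lev x - 1)) + ch (lev x) * h2 (lev x)) := by
  rw [Fintype.sum_option, ← sum_g1 h2 x]
  congr 1
  exact if_congr Iff.rfl rfl rfl

open Classical in
lemma sum_g2_none : (∑ z, if (attachLeaf T none).Adj none z then g2 s(none, z) else 0) = 32560 := by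
  rw [Fintype.sum_option]
  have e1 : ∀ y : VT, (if (attachLeaf T none).Adj none (some y) then g2 s(none, some y) else 0) =
      if y = none then 32560 else 0 := fun y => if_congr Iff.rfl rfl rfl
  rw [Finset.sum_congr rfl fun y _ => e1 y, Finset.sum_ite_eq', if_pos (Finset.mem_univ _)]
  have e2 : ¬ (attachLeaf T none).Adj none none := (attachLeaf T none).loopless.irrefl none
  rw [if_neg e2]
  norm_num

open Classical in
lemma deg_some (x : VT) : ((attachLeaf T none).degree (some x) : ℝ) =
    (if x = none then 1 else 0) + T.degree x := by
  have e0 : ∀ y : Option VT, ((attachLeaf T none).degree y : ℝ) =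
      ∑ z, if (attachLeaf T none).Adj y z then (1 : ℝ) else 0 := by
    intro y
    rw [Finset.sum_boole, ← SimpleGraph.card_neighborFinset_eq_degree,
      SimpleGraph.neighborFinset_eq_filter]
  rw [e0, Fintype.sum_option]
  have e1 : (T.degree x : ℝ) = ∑ z, if T.Adj x z then (1 : ℝ) else 0 := by
    rw [Finset.sum_boole, ← SimpleGraph.card_neighborFinset_eq_degree,
      SimpleGraph.neighborFinset_eq_filter]
  rw [e1]
  congr 1
  exact if_congr Iff.rfl rfl rfl

open Classical in
lemma deg_none : ((attachLeaf T none).degree none : ℝ) = 1 := by
  have e0 : ((attachLeaf T none).degree none : ℝ) =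
      ∑ z, if (attachLeaf T none).Adj none z then (1 : ℝ) else 0 := by
    rw [Finset.sum_boole, ← SimpleGraph.card_neighborFinset_eq_degree,
      SimpleGraph.neighborFinset_eq_filter]
  rw [e0, Fintype.sum_option]
  have e1 : ∀ y : VT, (if (attachLeaf T none).Adj none (some y) then (1 : ℝ) else 0) =
      if y = none then 1 else 0 := fun y => if_congr Iff.rfl rfl rfl
  rw [Finset.sum_congr rfl fun y _ => e1 y, Finset.sum_ite_eq', if_pos (Finset.mem_univ _)]
  have e2 : ¬ (attachLeaf T none).Adj none none := (attachLeaf T none).loopless.irrefl none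
  rw [if_neg e2]
  norm_num

lemma upper : lamMax (attachLeaf T none) ≤ 105344 / 100000 := by
  classical
  have hadj : (attachLeaf T none).Adj none (some none) := rfl
  refine lamMax_le (attachLeaf T none) (105344 / 100000) (fun e => g2 e) ?_
    ⟨⟨s(none, some none), hadj⟩⟩ ?_
  · rintro ⟨e, he⟩
    induction e with
    | h x y =>
      rcases x with _ | x <;> rcases y with _ | y
      · change (0 : ℝ) < 32560
        norm_num
      · change (0 : ℝ) < 32560
        norm_num
      · change (0 : ℝ) < 32560
        norm_num
      · exact h2_pos _
  · have key : ∀ x y : VT, ∀ h : (attachLeaf T none).Adj (some x) (some y), lev y = lev x + 1 →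
        (ricci (attachLeaf T none) *ᵥ fun e => g2 e) ⟨s(some x, some y), h⟩ ≤
        105344 / 100000 * g2 s(some x, some y) := by
      intro x y h hl
      have hy : y ≠ none := by
        rintro rfl
        exact Nat.succ_ne_zero _ hl.symm
      have hl0 : lev y ≠ 0 := by omega
      rw [ricci_apply, sum_g2_some, sum_g2_some, deg_some, deg_some, levT.degree, levT.degree,
        if_neg hy, if_neg hy, if_neg hl0, if_neg hl0, g2_some, g1_mk, hl, min_eq_left (by omega),
        Nat.add_sub_cancel]
      have hx : lev x ≤ 3 := by
        have := lev_le y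
        omega
      by_cases hx0 : x = none
      · have hlx : lev x = 0 := (levT.root x).2 hx0
        rw [if_pos hx0, if_pos hx0, hlx]
        norm_num [h2, ch]
      · have hlx : lev x ≠ 0 := fun h => hx0 ((levT.root x).1 h)
        rw [if_neg hx0, if_neg hx0]
        have hx1 : 1 ≤ lev x := by omega
        interval_cases lev x <;> norm_num [h2, ch]
    have key0 : ∀ h : (attachLeaf T none).Adj none (some none),
        (ricci (attachLeaf T none) *ᵥ fun e => g2 e) ⟨s(none, some none), h⟩ ≤
        105344 / 100000 * g2 s(none, some none) := by
      intro h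
      rw [ricci_apply, sum_g2_some, sum_g2_none, deg_some, deg_none, levT.degree]
      have e1 : g2 s(none, some none) = 32560 := rfl
      have hlx : lev none = 0 := rfl
      rw [e1, if_pos rfl, if_pos rfl, hlx]
      norm_num [h2, ch]
    rintro ⟨e, he⟩
    induction e with
    | h x y =>
      rcases x with _ | x <;> rcases y with _ | y
      · exact absurd he ((attachLeaf T none).loopless.irrefl none)
      · have hy : y = none := he
        subst hy
        exact key0 he
      · have hx : x = none := he
        subst hx
        have he' : (attachLeaf T none).Adj (some none) none := he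
        have := key0 he'.symm
        have e1 : (⟨s(none, some none), he'.symm⟩ :
            (attachLeaf T none).edgeSet) = ⟨s(some none, none), he⟩ := Subtype.ext Sym2.eq_swap
        rw [e1] at this
        exact this
      · rcases levT.adj x y he with hl | hl
        · exact key x y he hl
        · have he' : (attachLeaf T none).Adj (some x) (some y) := he
          have := key y x he'.symm hl
          have e1 : (⟨s(some y, some x), he'.symm⟩ :
              (attachLeaf T none).edgeSet) = ⟨s(some x, some y), he⟩ := Subtype.ext Sym2.eq_swap
          have e2 : g2 s(some y, some x) = g2 s(some x, some y) := by rw [Sym2.eq_swap]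
          rw [e1, e2] at this
          exact this

/-- There is a tree `T` with a vertex `v` of degree three such that attaching a leaf at `v` strictly
lowers the largest eigenvalue of the Ricci matrix. -/
theorem result : ∃ (V : Type) (_ : Fintype V) (T : SimpleGraph V) (v : V), T.IsTree ∧
    (T.neighborSet v).ncard = 3 ∧ lamMax (attachLeaf T v) < lamMax T := by
  classical
  refine ⟨VT, inferInstance, T, none, levT.isTree, ?_, ?_⟩
  · have h := levT.degree none
    have hlx : lev none = 0 := rfl
    rw [hlx, if_pos rfl, zero_add] at h
    have h' : T.degree none = 3 := by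
      have : (T.degree none : ℝ) = ((3 : ℕ) : ℝ) := h
      exact_mod_cast this
    have h2 : (T.neighborSet none).ncard = T.degree none := by
      rw [Set.ncard_eq_toFinset_card', ← SimpleGraph.card_neighborFinset_eq_degree]
      rfl
    exact h2.trans h'
  · exact upper.trans_lt (lt_of_lt_of_le (by norm_num) lower)

end Pool.Agent.Results.MP_1a9240_co.LeafAttachment
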